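import Pool.Agent.Helper35.LQ.Greedy

/-!
# Few leaf queries: long chains with alternating patterns
-/

namespace Pool.Agent.Helper7.LQ

open Pool.Agent.Helper6.TreeEval

namespace H77

/-! ### Chains and alternating lists are closed under sublists and prefixes -/

theorem chain_sublist {L : List Node} {j : ℕ} {u : Node} (h : Chain L j u) :
    ∀ {L' : List Node}, L'.Sublist L → Chain L' j u := by
  induction h with
  | nil j u =>
    intro L' hs
    rw [List.sublist_nil.mp hs]
    exact Chain.nil j u
  | skip b h ih =>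
    intro L' hs
    exact Chain.skip b (ih hs)
  | record b w hw h ih =>
    intro L' hs
    cases hs with
    | cons _ hs' => exact Chain.skip b (ih hs')
    | cons_cons _ hs' => exact Chain.record b w hw (ih hs')

theorem altList_take {α : Type} [DecidableEq α] {W : List α} :
    ∀ (L : List α) (ω : List Bool) (m : ℕ), AltList W ω L → AltList W ω (L.take m)
  | [], _, m, _ => by simp [AltList]
  | e :: L, ω, 0, _ => by simp [AltList]
  | e :: L, ω, m + 1, h => by
    rw [List.take_succ_cons]
    exact ⟨fun f hf => h.1 f (List.mem_of_mem_take hf), altList_take L (swp ω) m h.2⟩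

theorem swp_swp (ω : List Bool) : swp (swp ω) = ω := by
  unfold swp
  rw [List.map_map]
  simp [Function.comp_def]

theorem swp_length (ω : List Bool) : (swp ω).length = ω.length := by simp [swp]

theorem canon_length (ω : List Bool) : (canon ω).length = ω.length := by
  unfold canon
  split_ifs <;> simp [swp_length]

theorem canon_head {ω : List Bool} (h : ω ≠ []) : ∃ τ, canon ω = true :: τ := by
  unfold canon
  cases ω with
  | nil => exact absurd rfl h
  | cons b τ => cases b <;> simp [swp]

theorem eq_of_canon {ω κ : List Bool} (h : canon ω = κ) : ω = if ω.headI then κ else swp κ := by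
  subst h
  unfold canon
  cases hb : ω.headI <;> simp [swp_swp]

/-! ### One class of a list with alternating signs -/

theorem altList_filter (W : List Node) (κ : List Bool) :
    ∀ (L : List (Node × List Bool)) (σ : List Bool → Bool), AltSign σ L →
      L.Pairwise (fun x y => pat W x.1 y.1 = x.2) →
      AltList W (if σ κ then κ else swp κ) ((L.filter fun x => canon x.2 = κ).map Prod.fst)
  | [], _, _, _ => by simp [AltList]
  | x :: L, σ, h, hp => by
    have ih := altList_filter W κ L _ h.2 (List.pairwise_cons.mp hp).2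
    by_cases hx : canon x.2 = κ
    · rw [List.filter_cons_of_pos (by simpa using hx), List.map_cons]
      have h1 : x.2 = if σ κ then κ else swp κ := by
        have := eq_of_canon hx
        rwa [h.1, hx] at this
      refine ⟨?_, ?_⟩
      · intro f hf
        obtain ⟨y, hy, rfl⟩ := List.mem_map.mp hf
        rw [← h1]
        exact (List.pairwise_cons.mp hp).1 y (List.mem_of_mem_filter hy)
      · rw [hx, Function.update_self] at ih
        cases hs : σ κ <;> simp only [hs, Bool.not_false, Bool.not_true, if_true,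
          Bool.false_eq_true, if_false, swp_swp] at ih ⊢ <;> exact ih
    · rw [List.filter_cons_of_neg (by simpa using hx)]
      rwa [Function.update_of_ne (Ne.symm hx)] at ih

/-! ### Counting leaves -/

/-- The leaves of the complete binary tree of depth `d`. -/
def leavesOf (d : ℕ) : Finset Node := (Finset.univ : Finset (Fin d → Bool)).image List.ofFn

theorem mem_leavesOf {d : ℕ} {w : Node} : w ∈ leavesOf d ↔ w.length = d := by
  unfold leavesOf
  rw [Finset.mem_image]
  constructor
  · rintro ⟨f, -, rfl⟩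
    exact List.length_ofFn
  · rintro rfl
    exact ⟨w.get, Finset.mem_univ _, List.ofFn_get w⟩

theorem card_leavesOf (d : ℕ) : (leavesOf d).card = 2 ^ d := by
  unfold leavesOf
  rw [Finset.card_image_of_injective _ List.ofFn_injective, Finset.card_univ]
  simp

theorem count_eq_countP_decide (W : List Node) (x : Node) :
    W.count x = W.countP fun y => decide (y = x) := by
  rw [List.count_eq_countP]
  refine List.countP_congr fun y _ => ?_
  simp

theorem sum_count_eq (W : List Node) :
    ∑ x ∈ W.toFinset, W.count x = W.length := by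
  rw [← List.sum_toFinset_count_eq_length W]
  refine Finset.sum_congr rfl fun x _ => ?_
  rw [count_eq_countP_decide]
  unfold List.count
  refine List.countP_congr fun y _ => ?_
  simp

theorem sum_count_le (W : List Node) (s : Finset Node) :
    ∑ x ∈ s, W.count x ≤ W.length := by
  rw [← sum_count_eq W]
  refine Finset.sum_le_sum_of_ne_zero fun x _ hx => ?_
  rw [List.mem_toFinset]
  exact List.count_pos_iff.mp (Nat.pos_of_ne_zero hx)

/-- Many leaves are asked equally often. -/
theorem exists_rho (d r : ℕ) (hr : 2 ≤ r) (W : List Node) (hW : W.length ≤ r * 2 ^ d)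
    (hall : ∀ w : Node, w.length = d → w ∈ W) :
    ∃ ρ, 1 ≤ ρ ∧ ρ ≤ r ∧
      2 ^ d ≤ r * (r + 1) * ((leavesOf d).filter fun x => W.count x = ρ).card := by
  classical
  set S := (leavesOf d).filter fun x => W.count x ≤ r with hS
  set T := (leavesOf d).filter fun x => ¬ W.count x ≤ r with hT
  have hST : S.card + T.card = 2 ^ d := by
    rw [← card_leavesOf d, hS, hT]
    exact Finset.card_filter_add_card_filter_not _
  have hTc : (r + 1) * T.card ≤ r * 2 ^ d := by
    calc (r + 1) * T.card = ∑ _x ∈ T, (r + 1) := by rw [Finset.sum_const, smul_eq_mul, mul_comm]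
      _ ≤ ∑ x ∈ T, W.count x := by
          refine Finset.sum_le_sum fun x hx => ?_
          have := (Finset.mem_filter.mp hx).2
          omega
      _ ≤ W.length := sum_count_le W T
      _ ≤ r * 2 ^ d := hW
  have hSc : 2 ^ d ≤ (r + 1) * S.card := by nlinarith
  by_contra hcon
  push Not at hcon
  have hsum : S.card = ∑ ρ ∈ Finset.Icc 1 r, ((leavesOf d).filter fun x => W.count x = ρ).card := by
    rw [Finset.card_eq_sum_card_fiberwise (f := fun x => W.count x) (t := Finset.Icc 1 r)]
    · refine Finset.sum_congr rfl fun ρ hρ => ?_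
      congr 1
      ext x
      simp only [hS, Finset.mem_filter, and_assoc]
      constructor
      · rintro ⟨h1, -, h3⟩
        exact ⟨h1, h3⟩
      · rintro ⟨h1, h3⟩
        exact ⟨h1, by rw [h3]; exact (Finset.mem_Icc.mp hρ).2, h3⟩
    · intro x hx
      have hx' := Finset.mem_filter.mp hx
      have h1 : 1 ≤ W.count x :=
        List.one_le_count_iff.mpr (hall x (mem_leavesOf.mp hx'.1))
      exact Finset.mem_coe.mpr (Finset.mem_Icc.mpr ⟨h1, hx'.2⟩)
  have h2 : ∀ ρ ∈ Finset.Icc 1 r,
      r * (r + 1) * ((leavesOf d).filter fun x => W.count x = ρ).card < 2 ^ d := by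
    intro ρ hρ
    exact hcon ρ (Finset.mem_Icc.mp hρ).1 (Finset.mem_Icc.mp hρ).2
  have h3 : r * (r + 1) * S.card < r * 2 ^ d := by
    rw [hsum, Finset.mul_sum]
    calc _ < ∑ _ρ ∈ Finset.Icc 1 r, 2 ^ d :=
          Finset.sum_lt_sum_of_nonempty ⟨1, Finset.mem_Icc.mpr ⟨le_rfl, by omega⟩⟩ h2
      _ = r * 2 ^ d := by rw [Finset.sum_const, Nat.card_Icc, smul_eq_mul]; simp
  nlinarith

/-! ### Numbers -/

theorem mul_succ_le_four_pow (r : ℕ) : r * (r + 1) ≤ 4 ^ r := by
  induction r with
  | zero => simp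
  | succ r ih =>
    rw [pow_succ]
    have h : r + 1 ≤ 4 ^ r := by
      calc r + 1 ≤ 2 ^ r := Nat.lt_two_pow_self
        _ ≤ 4 ^ r := Nat.pow_le_pow_left (by norm_num) r
    nlinarith

theorem numbers (d r n ρ ℓ c : ℕ) (hr : 2 ≤ r) (hρ : ρ ≤ r)
    (hn : 5 * r * 4 ^ r * (n + 1) ≤ d + 1) (hc : 2 ^ d ≤ r * (r + 1) * c)
    (hb : c * 7 ^ d ≤ 8 ^ d * (8 * 4 ^ ρ) ^ ℓ) (hl : ℓ ≤ n * 4 ^ r) : False := by
  have h1 : 2 ^ d * 7 ^ d ≤ 2 ^ (2 * r + 3 * d + (2 * r + 3) * ℓ) := by
    calc 2 ^ d * 7 ^ d ≤ r * (r + 1) * c * 7 ^ d := Nat.mul_le_mul_right _ hc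
      _ = r * (r + 1) * (c * 7 ^ d) := by ring
      _ ≤ 4 ^ r * (8 ^ d * (8 * 4 ^ r) ^ ℓ) := by
          refine Nat.mul_le_mul (mul_succ_le_four_pow r) (hb.trans ?_)
          refine Nat.mul_le_mul_left _ (Nat.pow_le_pow_left ?_ ℓ)
          exact Nat.mul_le_mul_left _ (Nat.pow_le_pow_right (by norm_num) hρ)
      _ = 2 ^ (2 * r + 3 * d + (2 * r + 3) * ℓ) := by
          rw [show (4 : ℕ) = 2 ^ 2 by norm_num, show (8 : ℕ) = 2 ^ 3 by norm_num, ← pow_mul,
            ← pow_mul, ← pow_add, ← pow_mul, ← pow_add, ← pow_add]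
          congr 1
          ring
  have h2 : 19 * d ≤ 5 * (2 * r + 3 * d + (2 * r + 3) * ℓ) := by
    rw [← Nat.pow_le_pow_iff_right (a := 2) (by norm_num)]
    calc 2 ^ (19 * d) = 2 ^ (5 * d) * (2 ^ 14) ^ d := by
          rw [← pow_mul, ← pow_add]
          congr 1
          ring
      _ ≤ 2 ^ (5 * d) * (7 ^ 5) ^ d :=
          Nat.mul_le_mul_left _ (Nat.pow_le_pow_left (by norm_num) d)
      _ = (2 ^ d * 7 ^ d) ^ 5 := by
          rw [mul_pow, ← pow_mul, ← pow_mul, ← pow_mul, mul_comm 5 d]
      _ ≤ (2 ^ (2 * r + 3 * d + (2 * r + 3) * ℓ)) ^ 5 := Nat.pow_le_pow_left h1 5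
      _ = 2 ^ (5 * (2 * r + 3 * d + (2 * r + 3) * ℓ)) := by rw [← pow_mul, mul_comm 5]
  have hM : 1 ≤ 4 ^ r := Nat.one_le_pow _ _ (by norm_num)
  generalize 4 ^ r = M at *
  have h3 : (2 * r + 3) * ℓ ≤ (2 * r + 3) * (n * M) := Nat.mul_le_mul_left _ hl
  have h4 : 2 * (n * M) ≤ r * (n * M) := Nat.mul_le_mul_right _ hr
  have h5 : r ≤ r * M := Nat.le_mul_of_pos_right _ hM
  nlinarith

/-! ### The chain -/

theorem length_eq_sum_class (L : List (Node × List Bool)) :
    L.length = ∑ κ ∈ (L.map fun x => canon x.2).toFinset,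
      (L.filter fun x => canon x.2 = κ).length := by
  have h := sum_count_eq (L.map fun x => canon x.2)
  rw [List.length_map] at h
  rw [← h]
  refine Finset.sum_congr rfl fun κ _ => ?_
  rw [count_eq_countP_decide, List.countP_map, List.countP_eq_length_filter]
  rfl

theorem card_classes (ρ : ℕ) (hρ : 1 ≤ ρ) (L : List (Node × List Bool))
    (hL : ∀ x ∈ L, x.2.length = 2 * ρ) :
    (L.map fun x => canon x.2).toFinset.card ≤ 2 ^ (2 * ρ - 1) := by
  rw [← card_leavesOf]
  refine Finset.card_le_card_of_injOn List.tail ?_ ?_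
  · intro κ hκ
    obtain ⟨x, hx, rfl⟩ := List.mem_map.mp (List.mem_toFinset.mp (Finset.mem_coe.mp hκ))
    refine Finset.mem_coe.mpr (mem_leavesOf.mpr ?_)
    rw [List.length_tail, canon_length, hL x hx]
  · intro κ hκ κ' hκ' he
    obtain ⟨x, hx, rfl⟩ := List.mem_map.mp (List.mem_toFinset.mp (Finset.mem_coe.mp hκ))
    obtain ⟨y, hy, rfl⟩ := List.mem_map.mp (List.mem_toFinset.mp (Finset.mem_coe.mp hκ'))
    have hne : ∀ z ∈ L, z.2 ≠ [] := by
      intro z hz h0
      have := hL z hz
      rw [h0] at this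
      simp at this
      omega
    obtain ⟨τ, hτ⟩ := canon_head (hne x hx)
    obtain ⟨τ', hτ'⟩ := canon_head (hne y hy)
    simp only [hτ, hτ', List.tail_cons] at he ⊢
    rw [he]

end H77

open H77 in
/-- A word which contains all leaves and asks each of them at most `r` times on average has a long
chain of leaves with alternating patterns. -/
theorem exists_chain (d r : ℕ) (hr : 2 ≤ r) (W : List Node) (hW : W.length ≤ r * 2 ^ d)
    (hall : ∀ w : Node, w.length = d → w ∈ W) (n : ℕ) (hn : 5 * r * 4 ^ r * (n + 1) ≤ d + 1) :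
    ∃ (L : List Node) (ω : List Bool), Chain L d [] ∧ L.length = 2 * n + 1 ∧
      ω.length ≤ 2 * r ∧ AltList W ω L := by
  obtain ⟨ρ, hρ1, hρr, hcard⟩ := exists_rho d r hr W hW hall
  obtain ⟨L, hch, -, hlen, hpat, halt, hbig⟩ := greedy W ρ hρ1 d []
    ((leavesOf d).filter fun x => W.count x = ρ)
    (fun x hx => by
      obtain ⟨h1, h2⟩ := Finset.mem_filter.mp hx
      exact ⟨⟨x, mem_leavesOf.mp h1, (List.append_nil x).symm⟩, h2⟩) (fun _ => true)
  -- the number of recorded leaves
  have hLbig : n * 4 ^ r < L.length := by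
    by_contra hcon
    push Not at hcon
    exact numbers d r n ρ L.length _ hr hρr hn hcard hbig hcon
  -- one class is large
  have hclass : ∃ κ ∈ (L.map fun x => canon x.2).toFinset,
      2 * n < (L.filter fun x => canon x.2 = κ).length := by
    by_contra hcon
    push Not at hcon
    have h1 := length_eq_sum_class L
    have h2 : L.length ≤ 2 ^ (2 * ρ - 1) * (2 * n) := by
      rw [h1]
      calc _ ≤ ∑ _κ ∈ (L.map fun x => canon x.2).toFinset, 2 * n := Finset.sum_le_sum hcon
        _ = (L.map fun x => canon x.2).toFinset.card * (2 * n) := by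
            rw [Finset.sum_const, smul_eq_mul]
        _ ≤ 2 ^ (2 * ρ - 1) * (2 * n) := Nat.mul_le_mul_right _ (card_classes ρ hρ1 L hlen)
    have h3 : 2 ^ (2 * ρ - 1) * (2 * n) = n * 4 ^ ρ := by
      have : (4 : ℕ) ^ ρ = 2 ^ (2 * ρ - 1) * 2 := by
        rw [← pow_succ, show 2 * ρ - 1 + 1 = 2 * ρ by omega, pow_mul]
        norm_num
      rw [this]
      ring
    have h4 : n * 4 ^ ρ ≤ n * 4 ^ r :=
      Nat.mul_le_mul_left _ (Nat.pow_le_pow_right (by norm_num) hρr)
    omega
  obtain ⟨κ, hκ, hκn⟩ := hclass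
  obtain ⟨x, hx, hxκ⟩ := List.mem_map.mp (List.mem_toFinset.mp hκ)
  refine ⟨((L.filter fun x => canon x.2 = κ).map Prod.fst).take (2 * n + 1), κ, ?_, ?_, ?_, ?_⟩
  · exact chain_sublist hch ((List.take_sublist _ _).trans (List.Sublist.map _ List.filter_sublist))
  · rw [List.length_take, List.length_map]
    omega
  · rw [← hxκ, canon_length, hlen x hx]
    omega
  · have h := altList_filter W κ L _ halt hpat
    exact altList_take _ _ _ (by simpa using h)

end Pool.Agent.Helper7.LQ
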