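import Pool.Agent.Helper7.LQ.Defs

/-!
# Few leaf queries: classes of patterns and alternating signs (definitions)
-/

namespace Pool.Agent.Helper7.LQ

open Pool.Agent.Helper6.TreeEval

/-- The class of a pattern up to exchanging the roles (the representative starting with
`true`). -/
def canon (ω : List Bool) : List Bool := if ω.headI = true then ω else swp ω

/-- The signs (first letters) of the patterns of each class alternate, starting with `σ`. -/
def AltSign : (List Bool → Bool) → List (Node × List Bool) → Prop
  | _, [] => True
  | σ, x :: L => x.2.headI = σ (canon x.2) ∧
      AltSign (Function.update σ (canon x.2) (!(σ (canon x.2)))) L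

end Pool.Agent.Helper7.LQ
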